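import Pool.Agent.Lib.MP_a29b63_ag.Examples

namespace Pool.Agent.Results.MP_a29b63_ag.NotLinear

universe u

open CategoryTheory Pool.Agent.Lib.MP_a29b63_ag

theorem result (K : Type u) [Field K] (c : ℕ) (hc : 1 ≤ c) (C : IndexCat) :
    ∃ (M : RepModule K c C) (q : ℕ), M.FG ∧
      (C = IndexCat.OI ∨ ringChar K ≠ 0 → M.IsGraded) ∧
      2 ≤ q ∧
      (∀ n : ℕ, 1 ≤ n → projectiveDimension (M.obj n) =
        ((if q ∣ n + 1 then c * n else c * n - 1 : ℕ) : WithBot ℕ∞)) ∧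
      ¬ ∃ (A B : ℤ) (n₀ : ℕ), ∀ n : ℕ, n₀ ≤ n →
        ∃ d : ℕ, projectiveDimension (M.obj n) = (d : WithBot ℕ∞) ∧ (d : ℤ) = A * n + B := by
  obtain ⟨M, q, h1, h2, h3, h4⟩ := main K c hc C
  exact ⟨M, q, h1, h2, h3, h4, not_linear M hc q h3 h4⟩

end Pool.Agent.Results.MP_a29b63_ag.NotLinear
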