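import Pool.Agent.Lib.MP_a29b63_ag.Prime

namespace Pool.Agent.Results.MP_a29b63_ag.PrimePattern

universe u

open CategoryTheory Pool.Agent.Lib.MP_a29b63_ag

theorem result (K : Type u) [Field K] [CharZero K] (c : ℕ) (hc : 1 ≤ c) (C : IndexCat) :
    ∃ M : RepModule K c C, M.FG ∧ (2 ≤ c → ∃ I, IsRepIdeal K c C I ∧ M.IsQuotBy I) ∧
      (∀ n : ℕ, 2 ≤ n → projectiveDimension (M.obj n) =
        ((if n.Prime then c * n - 1 else c * n : ℕ) : WithBot ℕ∞)) ∧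
      ¬ ∃ (q : ℕ) (A B : ℕ → ℚ) (n₀ : ℕ), 1 ≤ q ∧ ∀ n : ℕ, n₀ ≤ n →
        ∃ d : ℕ, projectiveDimension (M.obj n) = (d : WithBot ℕ∞) ∧
          (d : ℚ) = A (n % q) * n + B (n % q) := by
  obtain ⟨M, h1, h2, h3⟩ := main_prime K c hc C
  refine ⟨M, h1, h2, h3, ?_⟩
  rintro ⟨q, A, B, n₀, hq, H⟩
  obtain ⟨p, hp0, hp⟩ := Nat.exists_infinite_primes n₀
  have key : ∀ k : ℕ, ((if (p * (1 + k * q)).Prime then c * (p * (1 + k * q)) - 1
      else c * (p * (1 + k * q)) : ℕ) : ℚ) = A (p % q) * (p * (1 + k * q) : ℕ) + B (p % q) := by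
    intro k
    have h4 : p ≤ p * (1 + k * q) := Nat.le_mul_of_pos_right _ (by omega)
    obtain ⟨d, hd, hd'⟩ := H _ (hp0.trans h4)
    rw [h3 _ (hp.two_le.trans h4)] at hd
    rw [show p * (1 + k * q) % q = p % q by
      rw [mul_add, mul_one, ← mul_assoc, Nat.add_mul_mod_self_right]] at hd'
    rw [← hd']
    exact_mod_cast hd
  have e0 := key 0
  have e1 := key 1
  have e2 := key 2
  rw [zero_mul, add_zero, mul_one, if_pos hp, Nat.cast_sub (Nat.mul_pos hc hp.pos)] at e0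
  rw [if_neg (Nat.not_prime_mul hp.ne_one (by omega))] at e1 e2
  push_cast at e0 e1 e2
  have h5 : (A (p % q) - c) * (p * q) = 0 := by linear_combination e1 - e2
  have h6 : (p * q : ℚ) ≠ 0 := by exact_mod_cast (Nat.mul_pos hp.pos hq).ne'
  have h7 := sub_eq_zero.1 ((mul_eq_zero.1 h5).resolve_right h6)
  rw [h7] at e0 e1
  linarith

end Pool.Agent.Results.MP_a29b63_ag.PrimePattern
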